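import Pool.Agent.Q281.QC.Stmt

set_option autoImplicit false

/-!
# MP_20c673_nt: a q-congruence with a sign and a power of q (Q1)

For an odd prime `p`, `m, r ≥ 1`, `m ∤ r`, `p ∤ m` and `N = ⟨-r/m⟩_p`, the congruence
`S(x) ≡ (-1)^N q^f T(x) (mod [p]^2)` holds for exactly one integer `f`, namely
`f = -m N (N+1) / 2 - (r + m N) (p - 1 - 2 N) / 2`.

Method. For `r = -m N` exactly (`0 ≤ N < p`) the two sums terminate and satisfy the exact reflection
formula `S = (-1)^N q^(-m N (N+1)/2) T` (both sides are killed by the q-difference operator of the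
little q-Legendre polynomials). The same for `r = -m N + m p`, by the symmetry `r ↔ m - r`, with
`p - 1 - N` for `N`. In general `r = -m N + p t`; modulo `(q^p - 1)^2` the coefficients of `S` and of
`q^(p t (N - (p-1)/2)) T` are affine in `t`, and they agree at `t = 0` and `t = m`.
-/

namespace Pool.Agent.Results.MP_20c673_nt.ReflectionExponent

open Polynomial Pool.Agent.Q281.QCS

/-- Q1: exactly one exponent, with its value; `N = ⟨-r/m⟩_p` is `res p (-(r : ℚ) / m)`. -/
theorem result : ∀ p m r : ℕ, Adm p m r → ∃ f : ℤ,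
    2 * f = -(m * (res p (-(r : ℚ) / m)) * ((res p (-(r : ℚ) / m)) + 1)) -
      (r + m * (res p (-(r : ℚ) / m))) * (p - 1 - 2 * (res p (-(r : ℚ) / m))) ∧
    ∀ g : ℤ, Holds p m r g ↔ g = f := by
  intro p m r h
  have hodd : ∃ h : ℕ, p = 2 * h + 1 := by
    rcases h.1.eq_two_or_odd with h' | h'
    · exact absurd h' h.2.1
    · exact ⟨p / 2, by omega⟩
  obtain ⟨e, he⟩ := hodd
  set N := res p (-(r : ℚ) / m) with hN
  obtain ⟨u, hu⟩ := Int.even_mul_succ_self (N : ℤ)
  have key : 2 * (-(m * u) - (r + m * N) * (e - N) : ℤ) =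
      -(m * N * (N + 1)) - (r + m * N) * (p - 1 - 2 * N) := by
    rw [he]
    push_cast
    linear_combination (m : ℤ) * hu
  refine ⟨_, key, fun g => ?_⟩
  rw [holds_iff h, ← hN, ← key]
  exact mul_right_inj' two_ne_zero

end Pool.Agent.Results.MP_20c673_nt.ReflectionExponent
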