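import Pool.Agent.Q281.QC.Stmt

set_option autoImplicit false

/-!
# MP_20c673_nt: the exponents for `r` and `r + m` (Q2)

If the congruence `S(x) ≡ (-1)^⟨-r/m⟩ q^f T(x) (mod [p]^2)` holds for `(p, m, r)` with the exponent `f` and
for `(p, m, r + m)` with the exponent `f'`, then `f' = -f` when `p ∣ r` and `f' = f - r` otherwise.

Method: the congruence holds exactly for `f = -m N (N+1) / 2 - (r + m N) (p - 1 - 2 N) / 2`,
`N = ⟨-r/m⟩_p` (helper file `Pool.Agent.Q281.QC.Final`), and `⟨-(r+m)/m⟩_p` is `N - 1`, or `p - 1` if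
`p ∣ r`.
-/

namespace Pool.Agent.Results.MP_20c673_nt.ShiftRelation

open Polynomial Pool.Agent.Q281.QCS

/-- Q2. -/
theorem result : ∀ (p m r : ℕ) (f f' : ℤ), Adm p m r → Holds p m r f → Holds p m (r + m) f' →
    (p ∣ r → f' = -f) ∧ (¬ p ∣ r → f' = f - r) := by
  intro p m r f f' h hf hf'
  have hadm' : Adm p m (r + m) := by
    obtain ⟨hp, hp2, hm, hr, hmr, hpm⟩ := h
    refine ⟨hp, hp2, hm, by omega, ?_, hpm⟩
    rwa [Nat.dvd_add_left (dvd_refl m)]
  have e1 := (holds_iff h f).1 hf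
  have e2 := (holds_iff hadm' f').1 hf'
  obtain ⟨hp, hp2, hm, hr, hmr, hpm⟩ := h
  obtain ⟨h1, h2⟩ := res_spec (r := r) hp hpm
  have hp1 := hp.pos
  constructor
  · intro hpr
    have hN : res p (-(r : ℚ) / m) = 0 := by
      refine res_unique hp hpm hp.pos ?_
      simpa using Int.natCast_dvd_natCast.2 hpr
    have hN' : res p (-((r + m : ℕ) : ℚ) / m) = p - 1 := by
      refine res_unique hp hpm (by omega) ?_
      have hp1 : ((p - 1 : ℕ) : ℤ) = p - 1 := by
        rw [Nat.cast_sub hp.one_lt.le, Nat.cast_one]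
      rw [hp1]
      have e : ((r + m : ℕ) : ℤ) + m * ((p : ℤ) - 1) = r + p * m := by push_cast; ring
      rw [e]
      exact dvd_add (Int.natCast_dvd_natCast.2 hpr) (dvd_mul_right _ _)
    rw [hN] at e1
    rw [hN'] at e2
    have hp1 : ((p - 1 : ℕ) : ℤ) = p - 1 := by
      rw [Nat.cast_sub hp.one_lt.le, Nat.cast_one]
    rw [hp1] at e2
    push_cast at e1 e2
    apply mul_left_cancel₀ (two_ne_zero (α := ℤ))
    linear_combination e1 + e2
  · intro hpr
    obtain ⟨N, hN⟩ : ∃ N, res p (-(r : ℚ) / m) = N + 1 := by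
      refine ⟨res p (-(r : ℚ) / m) - 1, ?_⟩
      have : res p (-(r : ℚ) / m) ≠ 0 := by
        intro h0
        rw [h0] at h2
        apply hpr
        have h3 : (p : ℤ) ∣ (r : ℤ) := by simpa using h2
        exact Int.natCast_dvd_natCast.1 h3
      omega
    have hN' : res p (-((r + m : ℕ) : ℚ) / m) = N := by
      refine res_unique hp hpm (by omega) ?_
      rw [hN] at h2
      have e : ((r + m : ℕ) : ℤ) + m * (N : ℤ) = r + m * ((N + 1 : ℕ) : ℤ) := by push_cast; ring
      rw [e]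
      exact h2
    rw [hN] at e1
    rw [hN'] at e2
    push_cast at e1 e2
    apply mul_left_cancel₀ (two_ne_zero (α := ℤ))
    linear_combination e2 - e1

end Pool.Agent.Results.MP_20c673_nt.ShiftRelation
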